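import Pool.Agent.MP_45d82d_co.h26.Trunc

/-!
The least number of inversions at which monotonicity fails beyond length `N`.
-/

set_option autoImplicit false

open Finset

namespace Pool.Agent.MP_45d82d_co.Neg

lemma lowerF {x : ℝ} (hx : 0 < x) (hx1 : x < 1) {q m P N c : ℕ} (hq : 2 ≤ q)
    (hK : x ^ q ^ 2 = 1 / 2) (hD : (1 - x)⁻¹ ≤ 2 * (q : ℝ) ^ 2) (hP : P = (2 * m + 8) * q ^ 2)
    (hxP : x ^ P = (q : ℝ)⁻¹) (hN : N = 2 * (P + 2) + 4 * (4 * q + 1) + 2) (hc : N ≤ c) :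
    m * (1 / 2) ^ 507 * (Wt x c (Box P P) ^ 2 * (∏ g ∈ Icc 1 (P + 2), (1 + x ^ (N - g))) ^ 4) ≤
      FF x (P + 2) (4 * q + 1) N := by
  have hq0 : (0 : ℝ) < q := Nat.cast_pos.2 (by omega)
  have hδ : x ^ (4 * q ^ 2) ≤ 1 / 16 := by
    rw [mul_comm, pow_mul, hK]
    norm_num
  have hB := Wt_nonneg hx.le c (Box P P)
  have hy : ∀ g, 0 ≤ x ^ (N - g) := fun g => pow_nonneg hx.le _
  have hy1 : ∀ g, x ^ (N - g) ≤ 1 := fun g => pow_le_one₀ hx.le hx1.le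
  have hPi : 0 ≤ ∏ g ∈ Icc 1 (P + 2), (1 + x ^ (N - g)) :=
    prod_nonneg fun g _ => by positivity
  have hS : Real.exp (∑ g ∈ Icc 1 (P + 2), x ^ (N - g)) ≤ 2 ^ (4 * q) := by
    rw [sum_reflect (by omega) fun g => x ^ g]
    have h1 := geom_le hx.le hx1 hD (Ico (N - (P + 2)) N) (r := P) fun g hg => by
      have := (mem_Ico.1 hg).1
      omega
    have h2 : x ^ P * (2 * (q : ℝ) ^ 2) = ((2 * q : ℕ) : ℝ) * 1 := by
      rw [hxP]
      push_cast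
      field_simp
    refine (Real.exp_le_exp.2 (h1.trans h2.le)).trans ?_
    rw [Real.exp_nat_mul, show 4 * q = 2 * (2 * q) by ring, pow_mul (2 : ℝ) 2]
    refine pow_le_pow_left₀ (Real.exp_pos _).le ?_ _
    have := Real.exp_one_lt_three
    linarith
  have hPq : P = 2 * (m * q ^ 2) + 8 * q ^ 2 := by rw [hP]; ring
  have h1 := small_ge (Icc 1 (P + 2)) (y := fun g => x ^ (N - g)) (fun g _ => hy g)
    (W := 4 * q + 1) (hS.trans (pow_le_pow_right₀ one_le_two (by omega)))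
  have h2 := Av132_ge hx.le hx1.le (P := P) (c := c) (by omega) hδ (by omega)
  have h3 := Tri_ge hx.le hx1.le (P := P) (c := c) (h0 := m * q ^ 2 + 8 * q ^ 2) (N := N)
    (by omega) hδ (by omega) (by omega) (by omega)
  have h4 : (∑ r ∈ Tri (P + 2), x ^ (invs r.1).card * x ^ (N - r.2.2)) *
      (1 / 4 * ∏ g ∈ Icc 1 (P + 2), (1 + x ^ (N - g))) ≤
      ∑ r ∈ Tri (P + 2), x ^ (invs r.1).card *
        ∑ T ∈ (Sub (P + 2) (4 * q + 1)).filter (fun T => r.2.2 ∈ T), ∏ g ∈ T, x ^ (N - g) := by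
    rw [sum_mul]
    refine sum_le_sum fun r hr => ?_
    rw [mul_assoc]
    refine mul_le_mul_of_nonneg_left ?_ (pow_nonneg hx.le _)
    refine marked_ge (Icc 1 (P + 2)) (y := fun g => x ^ (N - g)) hy hy1 hS ?_
    simp only [Tri, mem_filter, mem_product, mem_range] at hr
    exact mem_Icc.2 ⟨by omega, by omega⟩
  unfold FF
  rw [show P - (m * q ^ 2 + 8 * q ^ 2) = m * q ^ 2 by omega] at h3
  have h6 := (mul_le_mul_of_nonneg_right h3 (by positivity)).trans h4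
  have h7 : x ^ (4 * P + 502 * q ^ 2) ≤
      x ^ (N + (4 * (4 * q + 1) + 1) ^ 2) * x ^ (N + 2 * (4 * q ^ 2) + 1) := by
    rw [← pow_add]
    refine pow_le_pow_of_le_one hx.le hx1.le ?_
    rw [hN]
    nlinarith
  have h8 : x ^ (4 * P + 502 * q ^ 2) = (q : ℝ)⁻¹ ^ 4 * (1 / 2) ^ 502 := by
    rw [pow_add, mul_comm 4 P, mul_comm 502, pow_mul, pow_mul, hxP, hK]
  rw [h8] at h7
  change _ ≤ ∑ S ∈ Sub (P + 2) (4 * q + 1), ∏ g ∈ S, x ^ (N - g) at h1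
  generalize Wt x c (Box P P) = B at *
  generalize ∏ g ∈ Icc 1 (P + 2), (1 + x ^ (N - g)) = E at *
  have h9 := pow_nonneg hx.le (N + (4 * (4 * q + 1) + 1) ^ 2)
  have h10 := pow_nonneg hx.le (N + 2 * (4 * q ^ 2) + 1)
  generalize x ^ (N + (4 * (4 * q + 1) + 1) ^ 2) = u at *
  generalize x ^ (N + 2 * (4 * q ^ 2) + 1) = v at *
  calc m * (1 / 2) ^ 507 * (B ^ 2 * E ^ 4)
      = ((q : ℝ)⁻¹ ^ 4 * (1 / 2) ^ 502) * (m * q ^ 4 / 32 * (B ^ 2 * E ^ 4)) := by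
        rw [show 507 = 502 + 5 by norm_num, pow_add]
        generalize (1 / 2 : ℝ) ^ 502 = w
        field_simp
        ring
    _ ≤ (u * v) * (m * q ^ 4 / 32 * (B ^ 2 * E ^ 4)) :=
        mul_le_mul_of_nonneg_right h7 (by positivity)
    _ = u * ((((m * q ^ 2 : ℕ) : ℝ) * ((4 * q ^ 2 : ℕ) : ℝ) * (v * (1 / 2 * B)) * (1 / 4 * E)) *
        (1 / 2 * B * (1 / 2 * E) ^ 3)) := by
        push_cast
        ring
    _ ≤ _ := by
        refine mul_le_mul_of_nonneg_left (mul_le_mul h6 (mul_le_mul h2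
          (pow_le_pow_left₀ (by positivity) h1 3) (by positivity)
          (le_trans (by positivity) h2)) (by positivity) (le_trans (by positivity) h6)) h9

lemma root_bound {x : ℝ} (hx : 0 < x) (hx1 : x < 1) {K : ℕ} (h1 : x ^ K = 1 / 2) :
    (1 - x)⁻¹ ≤ 2 * K := by
  have h2 := one_add_mul_le_pow (a := x - 1) (by linarith) K
  rw [add_sub_cancel, h1] at h2
  rw [inv_le_iff_one_le_mul₀ (by linarith)]
  linarith

/-- The special lengths. -/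
def len (m : ℕ) : ℕ :=
  2 * ((2 * m + 8) * (2 ^ (2 * m + 8)) ^ 2 + 2) + 4 * (4 * 2 ^ (2 * m + 8) + 1) + 2

lemma drop {M m : ℕ} (hm : (M * Real.exp 30 ^ 4 + 1) / (1 / 2) ^ 507 < m) :
    ∃ k ≤ 152 * (2 ^ (2 * m + 8)) ^ 4, ∃ n, len m ≤ n ∧
      M * (Av n k).card < (Av (len m) k).card := by
  classical
  by_contra hne
  push Not at hne
  obtain ⟨q, hq⟩ : ∃ q : ℕ, q = 2 ^ (2 * m + 8) := ⟨_, rfl⟩
  have hq1 : 2 * m + 8 ≤ q := hq ▸ Nat.lt_two_pow_self.le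
  have hq2 : 2 ≤ q := by omega
  obtain ⟨y, hy, hy1, hK', hD'⟩ := exists_root (K := 2 * q ^ 2) (by positivity)
  obtain ⟨x, hxy⟩ : ∃ x, x = y ^ 2 := ⟨_, rfl⟩
  have hx : 0 < x := hxy ▸ pow_pos hy 2
  have hx1 : x < 1 := hxy ▸ pow_lt_one₀ hy.le hy1 two_ne_zero
  have hK : x ^ q ^ 2 = 1 / 2 := by rw [hxy, ← pow_mul, hK']
  have hD := root_bound hx hx1 hK
  push_cast at hD
  obtain ⟨P, hP⟩ : ∃ P, P = (2 * m + 8) * q ^ 2 := ⟨_, rfl⟩
  have hPq : P = 2 * (m * q ^ 2) + 8 * q ^ 2 := by rw [hP]; ring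
  have hxP : x ^ P = (q : ℝ)⁻¹ := by
    rw [hP, mul_comm, pow_mul, hK, hq]
    push_cast
    rw [one_div, inv_pow]
  obtain ⟨N, hN⟩ : ∃ N, N = 2 * (P + 2) + 4 * (4 * q + 1) + 2 := ⟨_, rfl⟩
  have hlen : len m = N := by rw [len, ← hq, ← hP, hN]
  rw [hlen, ← hq] at hne
  obtain ⟨K, hKq⟩ : ∃ K, K = 152 * q ^ 4 := ⟨_, rfl⟩
  rw [← hKq] at hne
  obtain ⟨c, hc, hcK⟩ : ∃ c, N ≤ c ∧ 2 * K < c := ⟨2 * K + 1 + N, by omega, by omega⟩
  have h1 : ∑ k ∈ range (K + 1), ((Av N k).card : ℝ) * x ^ k ≤ M * Wt x c (Box c c) ^ 2 := by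
    refine le_trans ?_ (mul_le_mul_of_nonneg_left
      (sum_small_le (n := 2 * c) hx.le hx1.le rfl hcK) M.cast_nonneg)
    rw [sum_eq_Av, mul_sum]
    refine sum_le_sum fun k hk => ?_
    rw [← mul_assoc]
    refine mul_le_mul_of_nonneg_right ?_ (pow_nonneg hx.le _)
    exact_mod_cast hne k (Nat.lt_succ_iff.1 (mem_range.1 hk)) (2 * c) (by omega)
  have h0 := FF_trunc hy.le hy1.le (P + 2) (4 * q + 1) N K hN
  rw [← hxy] at h0
  have ht : y ^ K * FF y (P + 2) (4 * q + 1) N ≤ 1 := by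
    have a1 := FF_le (p := P + 2) (W := 4 * q + 1) (N := N) hy.le hy1 hK' hD' (by omega) (by omega)
    have a2 : y ^ K = (1 / 4) ^ (38 * q ^ 2) := by
      rw [hKq, show 152 * q ^ 4 = 2 * q ^ 2 * (2 * (38 * q ^ 2)) by ring, pow_mul, hK', pow_mul]
      norm_num
    have a3 : ((P + 2 : ℕ) : ℝ) + 1 ≤ Real.exp ((q : ℝ) ^ 2) := by
      refine le_trans ?_ (Real.quadratic_le_exp_of_nonneg (sq_nonneg _))
      have b1 : (P : ℝ) ≤ q * q ^ 2 := by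
        exact_mod_cast hP ▸ Nat.mul_le_mul_right (q ^ 2) hq1
      have b2 : (2 : ℝ) ≤ q := by exact_mod_cast hq2
      have b3 : (0 : ℝ) ≤ (q - 2) * q ^ 3 := mul_nonneg (by linarith) (by positivity)
      push_cast
      nlinarith
    have a4 : (((P + 2 : ℕ) : ℝ) + 1) ^ 2 * Real.exp (18 * (2 * q ^ 2 : ℕ)) ≤
        4 ^ (38 * q ^ 2) := by
      refine (mul_le_mul_of_nonneg_right (pow_le_pow_left₀ (by positivity) a3 2)
        (Real.exp_pos _).le).trans ?_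
      rw [← Real.exp_nat_mul, ← Real.exp_add,
        show ((2 : ℕ) : ℝ) * (q : ℝ) ^ 2 + 18 * (2 * q ^ 2 : ℕ) = (38 * q ^ 2 : ℕ) * 1 by
          push_cast; ring, Real.exp_nat_mul]
      refine pow_le_pow_left₀ (Real.exp_pos _).le ?_ _
      have := Real.exp_one_lt_three
      linarith
    refine (mul_le_mul_of_nonneg_left (a1.trans a4) (pow_nonneg hy.le _)).trans ?_
    rw [a2, ← mul_pow]
    norm_num
  have h2 := lowerF hx hx1 hq2 hK hD hP hxP hN hc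
  have h3 := Wt_big hx.le hx1 (P := P) (c := c) (by omega)
  have h4 := tails_le hx.le hx1 (Q := q) (by exact_mod_cast hq2) hD (A := N - (P + 2)) hxP
    (by omega) (by omega : 2 * P ≤ N) hc (by exact_mod_cast (by omega : N - (P + 2) - P ≤ 24 * q))
  rw [← prod_reflect (by omega) fun g => 1 + x ^ g] at h4
  have hB : 1 ≤ Wt x c (Box P P) := by
    have := single_le_sum (f := fun f => x ^ sz c f) (s := Box P P)
      (fun _ _ => pow_nonneg hx.le _) (a := fun _ => 0)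
      (mem_Box.2 ⟨antitone_const, rfl, Nat.zero_le _⟩)
    refine le_trans ?_ this
    simp [sz]
  have hE : 1 ≤ ∏ g ∈ Icc 1 (P + 2), (1 + x ^ (N - g)) := by
    refine le_trans (prod_const_one (s := Icc 1 (P + 2))).ge
      (prod_le_prod (fun _ _ => zero_le_one) fun g _ => ?_)
    have := pow_nonneg hx.le (N - g)
    linarith
  have hF : 0 ≤ ∏ g ∈ Ioc P c, (1 - x ^ g)⁻¹ := by
    refine prod_nonneg fun g hg => inv_nonneg.2 ?_
    have := pow_le_one₀ (n := g) hx.le hx1.le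
    linarith
  have h5 : Wt x c (Box c c) ^ 2 ≤ (Wt x c (Box P P) *
      (Real.exp 30 * ∏ g ∈ Icc 1 (P + 2), (1 + x ^ (N - g))) ^ 2) ^ 2 :=
    pow_le_pow_left₀ (Wt_nonneg hx.le _ _) (h3.trans (mul_le_mul_of_nonneg_left
      (pow_le_pow_left₀ hF h4 2) (zero_le_one.trans hB))) 2
  have h6 := h2.trans (h0.trans (add_le_add
    (h1.trans (mul_le_mul_of_nonneg_left h5 M.cast_nonneg)) ht))
  generalize Wt x c (Box P P) = B at *
  generalize ∏ g ∈ Icc 1 (P + 2), (1 + x ^ (N - g)) = E at *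
  rw [div_lt_iff₀ (by positivity)] at hm
  have h7 : (B * (Real.exp 30 * E) ^ 2) ^ 2 = Real.exp 30 ^ 4 * (B ^ 2 * E ^ 4) := by ring
  have h8 : 1 ≤ B ^ 2 * E ^ 4 := one_le_mul_of_one_le_of_one_le (one_le_pow₀ hB) (one_le_pow₀ hE)
  rw [h7] at h6
  generalize B ^ 2 * E ^ 4 = U at *
  generalize (m : ℝ) * (1 / 2) ^ 507 = V at *
  generalize Real.exp 30 ^ 4 = G at *
  have h9 := mul_lt_mul_of_pos_right hm (zero_lt_one.trans_le h8)
  nlinarith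

lemma le_len (m : ℕ) : m ≤ len m := by
  have : 1 ≤ (2 ^ (2 * m + 8)) ^ 2 := Nat.one_le_pow _ _ (by positivity)
  have := Nat.mul_le_mul_left (2 * m + 8) this
  unfold len
  omega

lemma len_scale {m N : ℕ} (h1 : len m < N) (h2 : N ≤ len (m + 1)) :
    (2 ^ (2 * (m + 1) + 8)) ^ 2 * (Nat.log 2 N + 1) ≤ 80 * N := by
  obtain ⟨q, hq⟩ : ∃ q : ℕ, q = 2 ^ (2 * m + 8) := ⟨_, rfl⟩
  have hq' : 2 ^ (2 * (m + 1) + 8) = 4 * q := by rw [hq]; ring
  have hq1 : 2 * m + 8 ≤ q := hq ▸ Nat.lt_two_pow_self.le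
  have h3 : Nat.log 2 N < 4 * (2 * (m + 1) + 8) := by
    refine Nat.log_lt_of_lt_pow (by omega) (h2.trans_lt ?_)
    rw [mul_comm 4, pow_mul, len, hq']
    have a1 : (2 * (m + 1) + 8) * (4 * q) ^ 2 ≤ (2 * q) * (4 * q) ^ 2 :=
      Nat.mul_le_mul_right _ (by omega)
    have a2 : 1 ≤ q := by omega
    have a3 : q ^ 3 ≤ q ^ 4 := Nat.pow_le_pow_right a2 (by norm_num)
    have a4 : q ^ 1 ≤ q ^ 4 := Nat.pow_le_pow_right a2 (by norm_num)
    have a5 : 2 * q * (4 * q) ^ 2 = 32 * q ^ 3 := by ring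
    have a6 : (4 * q) ^ 4 = 256 * q ^ 4 := by ring
    rw [pow_one] at a4
    omega
  rw [len, ← hq] at h1
  rw [hq']
  have a1 : (4 * q) ^ 2 * (Nat.log 2 N + 1) ≤ (4 * q) ^ 2 * (4 * (2 * (m + 1) + 8)) :=
    Nat.mul_le_mul_left _ h3
  have a2 : (4 * q) ^ 2 * (4 * (2 * (m + 1) + 8)) = 128 * (m * q ^ 2) + 640 * q ^ 2 := by ring
  have a3 : (2 * m + 8) * q ^ 2 = 2 * (m * q ^ 2) + 8 * q ^ 2 := by ring
  omega

theorem upper (M : ℕ) : ∃ N₀, ∀ N, N₀ ≤ N → ∃ k n n', N ≤ n ∧ n ≤ n' ∧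
    M * (Av n' k).card < (Av n k).card ∧ k * (Nat.log 2 N + 1) ^ 2 ≤ 10 ^ 6 * N ^ 2 := by
  classical
  obtain ⟨m₀, hm₀⟩ := exists_nat_gt ((M * Real.exp 30 ^ 4 + 1) / (1 / 2) ^ 507)
  refine ⟨len m₀ + 1, fun N hN => ?_⟩
  have hex : ∃ j, N ≤ len (m₀ + j) := ⟨N, le_trans (by omega) (le_len _)⟩
  obtain ⟨j, hj⟩ : ∃ j, Nat.find hex = j + 1 :=
    Nat.exists_eq_succ_of_ne_zero fun h => by
      have := Nat.find_spec hex
      rw [h, add_zero] at this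
      omega
  have h2 : N ≤ len (m₀ + j + 1) := by
    have := Nat.find_spec hex
    rwa [hj] at this
  have h1 : len (m₀ + j) < N := not_le.1 (Nat.find_min hex (by omega))
  obtain ⟨k, hk, n, hn, h⟩ := drop (M := M) (m := m₀ + j + 1)
    (hm₀.trans_le (by exact_mod_cast (by omega : m₀ ≤ m₀ + j + 1)))
  refine ⟨k, _, n, h2, hn, h, ?_⟩
  have h3 := Nat.pow_le_pow_left (len_scale h1 h2) 2
  generalize 2 ^ (2 * (m₀ + j + 1) + 8) = q at hk h3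
  have a1 := Nat.mul_le_mul_right ((Nat.log 2 N + 1) ^ 2) hk
  have a2 : 152 * q ^ 4 * (Nat.log 2 N + 1) ^ 2 = 152 * (q ^ 2 * (Nat.log 2 N + 1)) ^ 2 := by ring
  have a3 : (80 * N) ^ 2 = 6400 * N ^ 2 := by ring
  omega

lemma log_scale {N n : ℕ} (hN : 0 < N) (h : N ≤ n) :
    N * (Nat.log 2 n + 1) ≤ 2 * n * (Nat.log 2 N + 1) := by
  obtain ⟨d, hd⟩ := Nat.exists_eq_add_of_le (Nat.log_mono_right (b := 2) h)
  have h1 : N < 2 ^ (Nat.log 2 N + 1) := Nat.lt_pow_succ_log_self (by norm_num) N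
  have h2 : 2 ^ Nat.log 2 n ≤ n := Nat.pow_log_le_self 2 (by omega)
  rw [hd, pow_add] at h2
  rw [hd]
  have h3 : d + 1 ≤ 2 ^ d := Nat.lt_two_pow_self
  rw [pow_succ] at h1
  generalize Nat.log 2 N = L at *
  generalize 2 ^ L = u at *
  have a1 : N * (d + 1) ≤ 2 * n := by
    have := Nat.mul_le_mul (show N ≤ u * 2 by omega) h3
    nlinarith
  have a2 : L + d + 1 ≤ (d + 1) * (L + 1) := by nlinarith [Nat.zero_le (d * L)]
  calc N * (L + d + 1) ≤ N * ((d + 1) * (L + 1)) := Nat.mul_le_mul_left _ a2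
    _ = N * (d + 1) * (L + 1) := by ring
    _ ≤ _ := Nat.mul_le_mul_right _ a1

theorem mono_of_small {N k : ℕ} (hN : 0 < N)
    (h : 4 * 10 ^ 8 * k * (Nat.log 2 N + 1) ^ 2 ≤ N ^ 2) {n n' : ℕ} (hn : N ≤ n) (hn' : n ≤ n') :
    (Av n k).card ≤ (Av n' k).card := by
  induction n', hn' using Nat.le_induction with
  | base => exact le_rfl
  | succ l hl ih =>
    refine ih.trans (card_Av_le l k ?_)
    have h1 := Nat.pow_le_pow_left (log_scale hN (hn.trans hl)) 2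
    have h2 := Nat.mul_le_mul_left (10 ^ 8 * k) h1
    have h3 := Nat.mul_le_mul_left (l ^ 2) h
    refine le_of_mul_le_mul_left ?_ (pow_pos hN 2)
    calc N ^ 2 * (10 ^ 8 * k * (Nat.log 2 l + 1) ^ 2)
        = 10 ^ 8 * k * (N * (Nat.log 2 l + 1)) ^ 2 := by ring
      _ ≤ 10 ^ 8 * k * (2 * l * (Nat.log 2 N + 1)) ^ 2 := h2
      _ = l ^ 2 * (4 * 10 ^ 8 * k * (Nat.log 2 N + 1) ^ 2) := by ring
      _ ≤ l ^ 2 * N ^ 2 := h3
      _ = N ^ 2 * l ^ 2 := mul_comm _ _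

theorem threshold (M : ℕ) (hM : 1 ≤ M) : ∃ N₀, ∀ N, N₀ ≤ N → ∃ K,
    IsLeast {k | ∃ n n', N ≤ n ∧ n ≤ n' ∧ M * (Av n' k).card < (Av n k).card} K ∧
    N ^ 2 < 4 * 10 ^ 8 * K * (Nat.log 2 N + 1) ^ 2 ∧
    K * (Nat.log 2 N + 1) ^ 2 ≤ 10 ^ 6 * N ^ 2 := by
  classical
  obtain ⟨N₀, h⟩ := upper M
  refine ⟨N₀ + 1, fun N hN => ?_⟩
  obtain ⟨k, n, n', h1, h2, h3, h4⟩ := h N (by omega)
  have hex : ∃ k, ∃ n n', N ≤ n ∧ n ≤ n' ∧ M * (Av n' k).card < (Av n k).card :=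
    ⟨k, n, n', h1, h2, h3⟩
  refine ⟨Nat.find hex, ⟨Nat.find_spec hex, fun l hl => Nat.find_min' hex hl⟩, ?_,
    (Nat.mul_le_mul_right _ (Nat.find_min' hex ⟨n, n', h1, h2, h3⟩)).trans h4⟩
  by_contra hc
  obtain ⟨a, b, a1, a2, a3⟩ := Nat.find_spec hex
  have := mono_of_small (by omega) (not_lt.1 hc) a1 a2
  have := Nat.mul_le_mul_right (Av b (Nat.find hex)).card hM
  omega

end Pool.Agent.MP_45d82d_co.Neg
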