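import Pool.Agent.MP_45d82d_co.neg.Main

/-!
Truncation of the family of avoiders to a bounded number of inversions.
-/

set_option autoImplicit false

open Finset Equiv

namespace Pool.Agent.MP_45d82d_co.Neg

variable {x y : ℝ} {p : ℕ}

/-- The bound for the number of inversions of the pattern with given parameters. -/
def wt (W N : ℕ) (q : Par p) : ℕ :=
  N + (4 * W + 1) ^ 2 + (((invs q.1.1.1).card + ∑ g ∈ q.1.2, (N - g)) +
    ((invs q.2.1).card + (∑ g ∈ q.2.2.1, (N - g) +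
      (∑ g ∈ q.2.2.2.1, (N - g) + ∑ g ∈ q.2.2.2.2, (N - g)))))

/-- The generating function of the family. -/
noncomputable def FF (x : ℝ) (p W N : ℕ) : ℝ :=
  x ^ (N + (4 * W + 1) ^ 2) *
    ((∑ q ∈ Tri p, x ^ (invs q.1).card *
      ∑ T ∈ (Sub p W).filter (fun T => q.2.2 ∈ T), ∏ g ∈ T, x ^ (N - g)) *
    ((∑ τ ∈ Av132 p, x ^ (invs τ).card) * (∑ S ∈ Sub p W, ∏ g ∈ S, x ^ (N - g)) ^ 3))

lemma FF_eq (x : ℝ) (p W N : ℕ) : FF x p W N = ∑ q ∈ Fam p W, x ^ wt W N q := by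
  classical
  have h1 : (∑ q ∈ Tri p, x ^ (invs q.1).card *
        ∑ T ∈ (Sub p W).filter (fun T => q.2.2 ∈ T), ∏ g ∈ T, x ^ (N - g)) *
      ((∑ τ ∈ Av132 p, x ^ (invs τ).card) * (∑ S ∈ Sub p W, ∏ g ∈ S, x ^ (N - g)) ^ 3) =
      ∑ q ∈ Fam p W, (x ^ (invs q.1.1.1).card * ∏ g ∈ q.1.2, x ^ (N - g)) *
        (x ^ (invs q.2.1).card * ((∏ g ∈ q.2.2.1, x ^ (N - g)) *
          ((∏ g ∈ q.2.2.2.1, x ^ (N - g)) * ∏ g ∈ q.2.2.2.2, x ^ (N - g)))) := by
    rw [Fam, pow_three]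
    simp only [sum_product, sum_sigma, ← mul_sum, ← sum_mul]
  rw [FF, h1, mul_sum]
  refine sum_congr rfl fun q _ => ?_
  simp only [prod_pow_eq_pow_sum, ← pow_add, wt]

lemma invs_pat_le {W : ℕ} {q : Par p} (hq : q ∈ Fam p W) :
    (invs (pat W q)).card ≤ wt W (2 * p + 4 * W + 2) q := by
  obtain ⟨e, r⟩ := pat_spec hq
  have h2 := (valid_mk hq).invs_le (N := 2 * p + 4 * W + 2)
    (by have := (valid_mk hq).size; omega) r
  have h3 := invB_mk hq
  refine h2.trans ?_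
  simp only [mk, wt] at h3 ⊢
  omega

open Classical in
lemma FF_trunc (hy : 0 ≤ y) (hy1 : y ≤ 1) (p W N K : ℕ) (hN : N = 2 * p + 4 * W + 2) :
    FF (y ^ 2) p W N ≤ ∑ k ∈ range (K + 1), ((Av N k).card : ℝ) * (y ^ 2) ^ k +
      y ^ K * FF y p W N := by
  rw [FF_eq, FF_eq, ← sum_eq_Av, ← sum_filter_add_sum_filter_not (Fam p W) fun q => wt W N q ≤ K]
  subst hN
  have h2 : (0 : ℝ) ≤ y ^ 2 := sq_nonneg y
  refine add_le_add ?_ ?_
  · refine sum_le_of_inj (pat W) (fun q hq => ?_)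
      (pat_inj.mono fun q hq => (mem_filter.1 hq).1) (fun q hq => ?_) fun _ _ => pow_nonneg h2 _
    · obtain ⟨hq, hK⟩ := mem_filter.1 hq
      obtain ⟨e, r⟩ := pat_spec hq
      exact mem_filter.2 ⟨mem_univ _, (valid_mk hq).avoid r, (invs_pat_le hq).trans hK⟩
    · exact pow_le_pow_of_le_one h2 (pow_le_one₀ hy hy1) (invs_pat_le (mem_filter.1 hq).1)
  · rw [mul_sum]
    refine le_trans (sum_le_sum fun q hq => ?_) (sum_le_sum_of_subset_of_nonneg (filter_subset _ _)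
      fun q _ _ => mul_nonneg (pow_nonneg hy _) (pow_nonneg hy _))
    rw [← pow_mul, ← pow_add]
    have := (mem_filter.1 hq).2
    exact pow_le_pow_of_le_one hy hy1 (by omega)

lemma Av132_le (hy : 0 ≤ y) (hy1 : y < 1) (p : ℕ) :
    ∑ τ ∈ Av132 p, y ^ (invs τ).card ≤ ∏ g ∈ Ioc 0 p, (1 - y ^ g)⁻¹ := by
  classical
  have h0 : Wt y p (Box 0 p) = 1 := by
    have : Box 0 p = {fun _ => 0} := by
      ext f
      rw [mem_Box, mem_singleton]
      constructor
      · rintro ⟨h1, h2, -⟩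
        funext i
        have := h1 (Nat.zero_le i)
        omega
      · rintro rfl
        exact ⟨antitone_const, rfl, Nat.zero_le _⟩
    simp [Wt, this, sz]
  have h1 := Wt_grow hy hy1 (P := 0) (b := p) (c := p) p (Nat.zero_le _) le_rfl
  rw [h0, one_mul] at h1
  refine le_trans ?_ h1
  refine sum_le_of_inj (hc p) (fun σ hσ => ?_) (fun σ _ τ _ h => ?_) (fun σ _ => ?_)
    fun _ _ => pow_nonneg hy _
  · have hσ : No132 σ := (mem_filter.1 hσ).2
    refine mem_Box.2 ⟨fun i j hij => ?_, by simp [hc], ?_⟩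
    · simp only [hc, and_self]
      by_cases hj : j < p
      · have hi : i < p := by omega
        rw [dif_pos hj, dif_pos hi]
        rcases hij.eq_or_lt with h | h
        · subst h
          exact le_rfl
        refine card_le_card fun k hk => ?_
        simp only [mem_filter, mem_univ, true_and] at hk ⊢
        have hij' : (⟨i, hi⟩ : Fin p) < ⟨j, hj⟩ := h
        refine ⟨hij'.trans hk.1, ?_⟩
        by_contra hne
        exact hσ _ _ _ hij' hk.1 (lt_of_le_of_ne (not_lt.1 hne)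
          fun e => (hij'.trans hk.1).ne (σ.injective e)) hk.2
      · rw [dif_neg hj]
        exact Nat.zero_le _
    · simp only [hc]
      split_ifs with h
      · have := code_lt σ ⟨0, h.2⟩
        omega
      · exact Nat.zero_le _
  · ext i
    rw [hc_ext h i i.2]
  · rw [sz_hc le_rfl, filter_true_of_mem fun q _ => q.1.2]

lemma bern (hy : 0 ≤ y) (g : ℕ) : (1 + g * (1 - y)) * y ^ g ≤ 1 := by
  induction g with
  | zero => simp
  | succ g ih =>
    refine le_trans ?_ ih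
    rw [pow_succ', ← mul_assoc]
    refine mul_le_mul_of_nonneg_right ?_ (pow_nonneg hy _)
    push_cast
    have : (0 : ℝ) ≤ g := g.cast_nonneg
    nlinarith [mul_nonneg this (sq_nonneg (1 - y)), sq_nonneg (1 - y)]

lemma part_le (hy : 0 ≤ y) (hy1 : y < 1) {D : ℕ} (hD : y ^ D = 1 / 2)
    (hD' : (1 - y)⁻¹ ≤ 2 * D) (hp : D ≤ p) :
    ∏ g ∈ Ioc 0 p, (1 - y ^ g)⁻¹ ≤ Real.exp (5 * D) := by
  have hlt : ∀ g, 0 < g → 0 < 1 - y ^ g := fun g hg => by
    have := pow_lt_one₀ hy hy1 hg.ne'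
    linarith
  rw [← prod_Ioc_consecutive _ (Nat.zero_le D) hp,
    show (5 * D : ℝ) = 3 * D + 2 * D by ring, Real.exp_add]
  refine mul_le_mul ?_ ?_ (prod_nonneg fun g hg => inv_nonneg.2
    (hlt g (by have := (mem_Ioc.1 hg).1; omega)).le) (Real.exp_pos _).le
  · have h1 : ∏ g ∈ Ioc 0 D, (1 - y ^ g)⁻¹ ≤ ∏ g ∈ Ioc 0 D, (3 * D / g : ℝ) := by
      refine prod_le_prod (fun g hg => inv_nonneg.2 (hlt g (mem_Ioc.1 hg).1).le) fun g hg => ?_
      obtain ⟨h0, hg⟩ := mem_Ioc.1 hg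
      have a0 : (0 : ℝ) < g := Nat.cast_pos.2 h0
      have a1 : (g : ℝ) ≤ D := Nat.cast_le.2 hg
      have a2 := bern hy g
      have a3 := hlt g h0
      have a4 : 1 ≤ 2 * D * (1 - y) := by
        rwa [inv_le_iff_one_le_mul₀ (by linarith)] at hD'
      have a5 : 0 ≤ y ^ g := pow_nonneg hy g
      rw [inv_le_iff_one_le_mul₀ a3, div_mul_eq_mul_div, le_div_iff₀ a0]
      have a6 : g * (1 - y) * y ^ g ≤ 1 - y ^ g := by linarith
      have a7 : g * y ^ g ≤ 2 * D * (1 - y ^ g) := by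
        have b1 := mul_le_mul_of_nonneg_left a6 (show (0 : ℝ) ≤ 2 * D by positivity)
        have b2 := mul_le_mul_of_nonneg_right a4 (mul_nonneg a0.le a5)
        nlinarith
      nlinarith [mul_le_mul_of_nonneg_right a1 a3.le]
    refine h1.trans ?_
    have h2 : ∏ g ∈ Ioc 0 D, (g : ℝ) = D.factorial := by
      rw [← Nat.cast_prod, ← prod_Ico_id_eq_factorial]
      rfl
    rw [prod_div_distrib, prod_const, Nat.card_Ioc, Nat.sub_zero, h2]
    exact Real.pow_div_factorial_le_exp _ (by positivity) D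
  · have h1 : ∏ g ∈ Ioc D p, (1 - y ^ g)⁻¹ ≤ ∏ g ∈ Ioc D p, (1 + 2 * y ^ g) := by
      refine prod_le_prod (fun g hg => inv_nonneg.2 ?_) fun g hg => ?_
      · have := pow_le_one₀ (n := g) hy hy1.le
        linarith
      · have a1 : y ^ g ≤ 1 / 2 := hD ▸ pow_le_pow_of_le_one hy hy1.le (mem_Ioc.1 hg).1.le
        have a2 : 0 ≤ y ^ g := pow_nonneg hy g
        rw [inv_le_iff_one_le_mul₀ (by linarith)]
        nlinarith
    refine h1.trans ((prod_le_exp _ fun g _ => by positivity).trans (Real.exp_le_exp.2 ?_))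
    have := geom_le hy hy1 hD' (Ioc D p) (r := D) fun g hg => (mem_Ioc.1 hg).1.le
    rw [← mul_sum]
    rw [hD] at this
    linarith

lemma FF_le (hy : 0 ≤ y) (hy1 : y < 1) {D W N : ℕ} (hD : y ^ D = 1 / 2)
    (hD' : (1 - y)⁻¹ ≤ 2 * D) (hp : D ≤ p) (hN : p ≤ N) :
    FF y p W N ≤ (p + 1) ^ 2 * Real.exp (18 * D) := by
  classical
  have hA := (Av132_le hy hy1 p).trans (part_le hy hy1 hD hD' hp)
  have hA0 : 0 ≤ ∑ τ ∈ Av132 p, y ^ (invs τ).card := sum_nonneg fun _ _ => pow_nonneg hy _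
  have hpos : ∀ S : Finset ℕ, 0 ≤ ∏ g ∈ S, y ^ (N - g) :=
    fun S => prod_nonneg fun _ _ => pow_nonneg hy _
  have hE : ∑ S ∈ Sub p W, ∏ g ∈ S, y ^ (N - g) ≤ Real.exp (2 * D) := by
    refine (sum_le_sum_of_subset_of_nonneg (filter_subset _ _) fun S _ _ => hpos S).trans ?_
    rw [← prod_one_add]
    refine (prod_le_exp _ fun g _ => pow_nonneg hy _).trans (Real.exp_le_exp.2 ?_)
    rw [sum_reflect hN fun g => y ^ g]
    simpa using geom_le hy hy1 hD' (Ico (N - p) N) (r := 0) fun g _ => Nat.zero_le g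
  have hE0 : 0 ≤ ∑ S ∈ Sub p W, ∏ g ∈ S, y ^ (N - g) := sum_nonneg fun S _ => hpos S
  have hT : ∑ q ∈ Tri p, y ^ (invs q.1).card *
      ∑ T ∈ (Sub p W).filter (fun T => q.2.2 ∈ T), ∏ g ∈ T, y ^ (N - g) ≤
      (p + 1) ^ 2 * Real.exp (5 * D) * Real.exp (2 * D) := by
    have h1 : ∑ q ∈ Tri p, y ^ (invs q.1).card ≤ (p + 1) ^ 2 * Real.exp (5 * D) := by
      have h2 : Tri p ⊆ Av132 p ×ˢ range (p + 1) ×ˢ range (p + 1) := fun q hq => by
        simp only [Tri, Av132, mem_filter, mem_product] at hq ⊢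
        exact ⟨⟨hq.1.1, hq.2.1⟩, hq.1.2⟩
      refine (sum_le_sum_of_subset_of_nonneg h2 fun q _ _ => pow_nonneg hy _).trans ?_
      rw [sum_product]
      simp only [sum_const, card_product, card_range, nsmul_eq_mul, ← mul_sum]
      push_cast
      rw [← sq]
      exact mul_le_mul_of_nonneg_left hA (sq_nonneg _)
    refine le_trans (sum_le_sum fun q _ => mul_le_mul_of_nonneg_left
      ((sum_le_sum_of_subset_of_nonneg (filter_subset _ _) fun S _ _ => hpos S).trans hE)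
      (pow_nonneg hy _)) ?_
    rw [← sum_mul]
    exact mul_le_mul_of_nonneg_right h1 (Real.exp_pos _).le
  have h3 := mul_le_mul hT (mul_le_mul hA (pow_le_pow_left₀ hE0 hE 3) (pow_nonneg hE0 3)
    (Real.exp_pos _).le) (mul_nonneg hA0 (pow_nonneg hE0 3)) (by positivity)
  have h4 : ((p : ℝ) + 1) ^ 2 * Real.exp (5 * D) * Real.exp (2 * D) *
      (Real.exp (5 * D) * Real.exp (2 * D) ^ 3) = (p + 1) ^ 2 * Real.exp (18 * D) := by
    rw [← Real.exp_nat_mul, mul_assoc, mul_assoc, ← Real.exp_add, ← Real.exp_add, ← Real.exp_add]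
    congr 2
    push_cast
    ring
  rw [h4] at h3
  refine (mul_le_mul (pow_le_one₀ hy hy1.le) h3 ?_ zero_le_one).trans (one_mul _).le
  exact mul_nonneg (sum_nonneg fun q _ => mul_nonneg (pow_nonneg hy _)
    (sum_nonneg fun S _ => hpos S)) (mul_nonneg hA0 (pow_nonneg hE0 3))

end Pool.Agent.MP_45d82d_co.Neg
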